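import Pool.Agent.H86.DB.Targets

/-!
# A family over the line which is reduced at one is a smoothing at zero
-/

set_option autoImplicit false
set_option linter.unusedVariables false

open Module TensorProduct

namespace Pool.Agent.H68.DB

open Pool.Agent.H12.Defect Pool.Agent.H15.Defect Pool.Agent.H86.DB

universe u

section general

variable {R R' S S' ι : Type*} [CommRing R] [CommRing R'] [CommRing S] [CommRing S'] [Algebra R S]
  [Algebra R' S'] [Fintype ι] (φ : R →+* R') (Φ : S →+* S') (b : Basis ι R S) (b' : Basis ι R' S')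

theorem sl_smul (hφ : ∀ r, Φ (algebraMap R S r) = algebraMap R' S' (φ r)) (r : R) (a : S) :
    Φ (r • a) = φ r • Φ a := by
  rw [Algebra.smul_def, map_mul, hφ, ← Algebra.smul_def]

theorem sl_repr (hφ : ∀ r, Φ (algebraMap R S r) = algebraMap R' S' (φ r))
    (hb : ∀ i, b' i = Φ (b i)) (a : S) (i : ι) : b'.repr (Φ a) i = φ (b.repr a i) := by
  classical
  have h1 : Φ a = ∑ j, φ (b.repr a j) • b' j := by
    conv_lhs => rw [← b.sum_repr a]
    rw [map_sum]
    refine Finset.sum_congr rfl fun j _ => ?_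
    rw [sl_smul φ Φ hφ, hb]
  rw [h1, Basis.repr_sum_self]

theorem sl_trace (hφ : ∀ r, Φ (algebraMap R S r) = algebraMap R' S' (φ r))
    (hb : ∀ i, b' i = Φ (b i)) (a : S) :
    Algebra.trace R' S' (Φ a) = φ (Algebra.trace R S a) := by
  classical
  rw [Algebra.trace_eq_matrix_trace b', Algebra.trace_eq_matrix_trace b, Matrix.trace,
    Matrix.trace, map_sum]
  refine Finset.sum_congr rfl fun i _ => ?_
  rw [Matrix.diag_apply, Matrix.diag_apply, Algebra.leftMulMatrix_eq_repr_mul,
    Algebra.leftMulMatrix_eq_repr_mul, hb, ← map_mul, sl_repr φ Φ b b' hφ hb]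

/-- the discriminant -/
noncomputable def dsc [DecidableEq ι] (b : Basis ι R S) : R :=
  (Matrix.of fun i j => Algebra.trace R S (b i * b j)).det

theorem sl_dsc [DecidableEq ι] (hφ : ∀ r, Φ (algebraMap R S r) = algebraMap R' S' (φ r))
    (hb : ∀ i, b' i = Φ (b i)) : dsc b' = φ (dsc b) := by
  unfold dsc
  rw [RingHom.map_det]
  congr 1
  ext i j
  simp only [Matrix.of_apply, RingHom.mapMatrix_apply, Matrix.map_apply]
  rw [hb, hb, ← map_mul, sl_trace φ Φ b b' hφ hb]

/-- An algebra over a domain with nonzero discriminant is reduced. -/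
theorem reduced_of_dsc [IsDomain R] [DecidableEq ι] (h : dsc b ≠ 0) : IsReduced S := by
  refine ⟨fun z hz => ?_⟩
  have h1 : (Matrix.of fun i j => Algebra.trace R S (b i * b j)).mulVec (fun j => b.repr z j) =
      0 := by
    funext i
    have h2 : Algebra.trace R S (b i * z) = 0 :=
      (Algebra.isNilpotent_trace_of_isNilpotent
        ((Commute.all _ _).isNilpotent_mul_left hz)).eq_zero
    rw [← b.sum_repr z, Finset.mul_sum, map_sum] at h2
    show ∑ j, Algebra.trace R S (b i * b j) * b.repr z j = 0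
    rw [← h2]
    refine Finset.sum_congr rfl fun j _ => ?_
    rw [mul_smul_comm, map_smul, smul_eq_mul, mul_comm]
  have h2 := Matrix.eq_zero_of_mulVec_eq_zero h h1
  apply b.repr.injective
  ext j
  rw [map_zero]
  exact congrFun h2 j

theorem dsc_baseChange [Algebra R R'] [DecidableEq ι] :
    dsc (Algebra.TensorProduct.basis R' b) = algebraMap R R' (dsc b) := by
  refine sl_dsc (algebraMap R R')
    (Algebra.TensorProduct.includeRight : S →ₐ[R] R' ⊗[R] S).toRingHom b
    (Algebra.TensorProduct.basis R' b) (fun r => ?_)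
    (fun i => Algebra.TensorProduct.basis_apply b i)
  show (1 : R') ⊗ₜ[R] (algebraMap R S r) = (algebraMap R R' r) ⊗ₜ[R] (1 : S)
  rw [Algebra.algebraMap_eq_smul_one, Algebra.algebraMap_eq_smul_one, TensorProduct.tmul_smul,
    TensorProduct.smul_tmul']

theorem reduced_tensor {Ω : Type*} [Field Ω] [Algebra R R'] [Algebra R' Ω] [DecidableEq ι]
    (h : algebraMap R' Ω (algebraMap R R' (dsc b)) ≠ 0) :
    IsReduced (Ω ⊗[R'] (R' ⊗[R] S)) := by
  apply reduced_of_dsc (Algebra.TensorProduct.basis Ω (Algebra.TensorProduct.basis R' b))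
  rw [dsc_baseChange, dsc_baseChange]
  exact h

end general

/-- The discriminant of a reduced algebra over an algebraically closed field. -/
theorem dsc_ne_zero (k : Type u) [Field k] [IsAlgClosed k] (A : Type u) [CommRing A] [Algebra k A]
    [IsReduced A] {ι : Type*} [Fintype ι] [DecidableEq ι] (b : Basis ι k A) : dsc b ≠ 0 := by
  classical
  have hfin : Module.Finite k A := Module.Finite.of_basis b
  obtain ⟨T, _, ⟨e⟩⟩ := exists_algEquiv_pi k A
  intro h0
  obtain ⟨v, hv, hv0⟩ := Matrix.exists_mulVec_eq_zero_iff.2 h0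
  obtain ⟨x, hx⟩ : ∃ x : A, x = ∑ j, v j • b j := ⟨_, rfl⟩
  have h1 : ∀ i, Algebra.trace k A (b i * x) = 0 := by
    intro i
    have h2 := congrFun hv0 i
    have h3 : ∑ j, Algebra.trace k A (b i * b j) * v j = 0 := h2
    rw [hx, Finset.mul_sum, map_sum, ← h3]
    refine Finset.sum_congr rfl fun j _ => ?_
    rw [mul_smul_comm, map_smul, smul_eq_mul, mul_comm]
  have h2 : ∀ y : A, Algebra.trace k A (y * x) = 0 := by
    intro y
    rw [← b.sum_repr y, Finset.sum_mul, map_sum]
    refine Finset.sum_eq_zero fun i _ => ?_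
    rw [smul_mul_assoc, map_smul, h1, smul_zero]
  have hx0 : x ≠ 0 := by
    intro h
    apply hv
    funext j
    have h3 := congrArg (fun z => b.repr z j) (hx.symm.trans h)
    simp only [map_zero, Finsupp.coe_zero, Pi.zero_apply] at h3
    rw [Basis.repr_sum_self] at h3
    exact h3
  have hex : e x ≠ 0 := fun h => hx0 (e.injective (by rw [h, map_zero]))
  obtain ⟨t, ht⟩ : ∃ t, e x t ≠ 0 := by
    by_contra hcon
    push Not at hcon
    exact hex (funext hcon)
  have h3 := h2 (e.symm (Pi.single t 1))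
  rw [← Algebra.trace_eq_of_algEquiv e, map_mul, e.apply_symm_apply,
    Algebra.trace_eq_matrix_trace (Pi.basisFun k T), Matrix.trace] at h3
  rw [Finset.sum_eq_single t] at h3
  · rw [Matrix.diag_apply, Algebra.leftMulMatrix_eq_repr_mul, Pi.basisFun_repr,
      Pi.basisFun_apply] at h3
    simp at h3
    exact ht h3
  · intro s _ hs
    rw [Matrix.diag_apply, Algebra.leftMulMatrix_eq_repr_mul, Pi.basisFun_repr,
      Pi.basisFun_apply]
    simp [hs]
  · intro h
    exact absurd (Finset.mem_univ t) h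

section fibre

variable {k : Type u} [Field k] {𝒜 A : Type u} [CommRing 𝒜] [Algebra (Polynomial k) 𝒜]
  [CommRing A] [Algebra k A] {π : 𝒜 →+* A} {t : k}

/-- linearity of the map to a fibre -/
theorem fib_alg (hk : RingHom.ker π = Ideal.span {algebraMap (Polynomial k) 𝒜
      (Polynomial.X - Polynomial.C t)})
    (hC : ∀ r : k, π (algebraMap (Polynomial k) 𝒜 (Polynomial.C r)) = algebraMap k A r)
    (r : Polynomial k) : π (algebraMap (Polynomial k) 𝒜 r) = algebraMap k A (r.eval t) := by
  have h1 : (Polynomial.X - Polynomial.C t) ∣ r - Polynomial.C (r.eval t) := by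
    rw [Polynomial.dvd_iff_isRoot]
    simp
  obtain ⟨s, hs⟩ := h1
  have h2 : r = Polynomial.C (r.eval t) + (Polynomial.X - Polynomial.C t) * s := by
    rw [← hs]; ring
  have h3 : π (algebraMap (Polynomial k) 𝒜 (Polynomial.X - Polynomial.C t)) = 0 := by
    rw [← RingHom.mem_ker, hk]
    exact Ideal.mem_span_singleton_self _
  conv_lhs => rw [h2]
  rw [map_add, map_mul, map_add, map_mul, h3, zero_mul, add_zero, hC]

theorem fib_li (hk : RingHom.ker π = Ideal.span {algebraMap (Polynomial k) 𝒜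
      (Polynomial.X - Polynomial.C t)})
    (hC : ∀ r : k, π (algebraMap (Polynomial k) 𝒜 (Polynomial.C r)) = algebraMap k A r)
    {ι : Type*} [Fintype ι] (b : Basis ι (Polynomial k) 𝒜) :
    LinearIndependent k (fun i => π (b i)) := by
  rw [Fintype.linearIndependent_iff]
  intro α hα i
  have h1 : π (∑ j, (Polynomial.C (α j) : Polynomial k) • b j) = 0 := by
    rw [map_sum, ← hα]
    refine Finset.sum_congr rfl fun j _ => ?_
    rw [Algebra.smul_def, map_mul, hC, ← Algebra.smul_def]
  rw [← RingHom.mem_ker, hk, Ideal.mem_span_singleton'] at h1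
  obtain ⟨c, hc⟩ := h1
  have h3 : (∑ j, (Polynomial.C (α j) : Polynomial k) • b j) =
      (Polynomial.X - Polynomial.C t) • c := by
    rw [← hc, Algebra.smul_def, mul_comm]
  have h4 : b.repr (∑ j, (Polynomial.C (α j) : Polynomial k) • b j) i =
      b.repr ((Polynomial.X - Polynomial.C t) • c) i := by rw [h3]
  rw [Basis.repr_sum_self, map_smul, Finsupp.smul_apply, smul_eq_mul] at h4
  have h5 := congrArg (Polynomial.eval t) h4
  simpa using h5

theorem fib_span (hk : RingHom.ker π = Ideal.span {algebraMap (Polynomial k) 𝒜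
      (Polynomial.X - Polynomial.C t)})
    (hC : ∀ r : k, π (algebraMap (Polynomial k) 𝒜 (Polynomial.C r)) = algebraMap k A r)
    (hs : Function.Surjective π) {ι : Type*} [Fintype ι] (b : Basis ι (Polynomial k) 𝒜) :
    ⊤ ≤ Submodule.span k (Set.range fun i => π (b i)) := by
  intro x _
  obtain ⟨a, rfl⟩ := hs x
  rw [← b.sum_repr a, map_sum]
  refine Submodule.sum_mem _ fun i _ => ?_
  rw [Algebra.smul_def, map_mul, fib_alg hk hC, ← Algebra.smul_def]
  exact Submodule.smul_mem _ _ (Submodule.subset_span ⟨i, rfl⟩)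

end fibre

theorem coe_alg (k : Type u) [Field k] (p : Polynomial k) :
    algebraMap (Polynomial k) (PowerSeries k) p = (p : PowerSeries k) := by
  rw [PowerSeries.algebraMap_apply']
  ext n
  rw [PowerSeries.coeff_map]
  rfl

theorem pf_FAM : T_FAM.{u} := by
  classical
  intro k _ _ 𝒜 A₀ A₁ _ _ _ _ _ _ π₀ π₁ hfin hfree hs₀ hs₁ hk₀ hk₁ hC₀ hC₁ hred
  rw [isSmoothable_iff]
  have hk₀' : RingHom.ker π₀ = Ideal.span {algebraMap (Polynomial k) 𝒜
      (Polynomial.X - Polynomial.C 0)} := by
    rw [hk₀]; simp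
  have hk₁' : RingHom.ker π₁ = Ideal.span {algebraMap (Polynomial k) 𝒜
      (Polynomial.X - Polynomial.C 1)} := by
    rw [hk₁]; simp
  let b := Module.Free.chooseBasis (Polynomial k) 𝒜
  -- the discriminant
  let b₁ : Basis _ k A₁ := Basis.mk (fib_li hk₁' hC₁ b) (fib_span hk₁' hC₁ hs₁ b)
  have hb₁ : ∀ i, b₁ i = π₁ (b i) := fun i => Basis.mk_apply _ _ i
  have hD₁ : dsc b₁ = (dsc b).eval 1 :=
    sl_dsc (Polynomial.evalRingHom 1) π₁ b b₁ (fun r => fib_alg hk₁' hC₁ r) hb₁
  have hD : dsc b ≠ 0 := by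
    intro h
    rw [h, Polynomial.eval_zero] at hD₁
    exact dsc_ne_zero k A₁ b₁ hD₁
  -- the model
  let iA₀ : Algebra (Polynomial k) A₀ := (π₀.comp (algebraMap (Polynomial k) 𝒜)).toAlgebra
  have hA₀ : ∀ r, algebraMap (Polynomial k) A₀ r = algebraMap k A₀ (r.eval 0) := fun r =>
    fib_alg hk₀' hC₀ r
  let f : PowerSeries k →ₐ[Polynomial k] A₀ :=
    { (algebraMap k A₀).comp (PowerSeries.constantCoeff (R := k)) with
      commutes' := by
        intro r
        show algebraMap k A₀ (PowerSeries.constantCoeff (algebraMap (Polynomial k) _ r)) = _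
        rw [hA₀, coe_alg, Polynomial.constantCoeff_coe, Polynomial.coeff_zero_eq_eval_zero] }
  let g : 𝒜 →ₐ[Polynomial k] A₀ := { π₀ with commutes' := fun r => rfl }
  let π : PowerSeries k ⊗[Polynomial k] 𝒜 →ₐ[Polynomial k] A₀ :=
    Algebra.TensorProduct.lift f g (fun _ _ => Commute.all _ _)
  have hπ : ∀ r a, π (r ⊗ₜ a) = algebraMap k A₀ (PowerSeries.constantCoeff r) * π₀ a := by
    intro r a
    exact Algebra.TensorProduct.lift_tmul _ _ _ r a
  let bb : Basis _ (PowerSeries k) (PowerSeries k ⊗[Polynomial k] 𝒜) :=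
    Algebra.TensorProduct.basis (PowerSeries k) b
  have hbb : ∀ i, bb i = 1 ⊗ₜ b i := fun i => Algebra.TensorProduct.basis_apply b i
  refine ⟨PowerSeries k ⊗[Polynomial k] 𝒜, inferInstance, inferInstance, π.toRingHom,
    inferInstance, inferInstance, ?_, ?_, ?_, ?_⟩
  · apply reduced_tensor b
    intro h3
    rw [map_eq_zero_iff _ algebraMap_om_injective, coe_alg] at h3
    apply hD
    apply Polynomial.coe_injective
    rw [h3]
    simp
  · intro a
    obtain ⟨a', rfl⟩ := hs₀ a
    refine ⟨1 ⊗ₜ a', ?_⟩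
    show π (1 ⊗ₜ a') = _
    rw [hπ]
    simp
  · refine ker_eq_of_linearIndependent ?_ ?_ bb ?_
    · show π (PowerSeries.X ⊗ₜ 1) = 0
      rw [hπ]
      simp
    · intro r
      show π (PowerSeries.C r ⊗ₜ 1) = _
      rw [hπ]
      simp
    · have h1 : (fun i => π.toRingHom (bb i)) = fun i => π₀ (b i) := by
        funext i
        show π (bb i) = _
        rw [hbb, hπ]
        simp
      rw [h1]
      exact fib_li hk₀' hC₀ b
  · intro r
    show π (PowerSeries.C r ⊗ₜ 1) = _
    rw [hπ]
    simp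

end Pool.Agent.H68.DB
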