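import Pool.Agent.H86.DB.Targets

/-!
# A basis of the quotient by the ideal of the Newton products
-/

set_option autoImplicit false
set_option linter.unusedVariables false

open Module MvPolynomial

namespace Pool.Agent.H68.DB

open Pool.Agent.H12.Defect Pool.Agent.H15.Defect Pool.Agent.H86.DB

universe u

theorem ex_le_sum {m : ℕ} (N : ℕ) : ∀ (d : ℕ) (β : Fin m → ℕ), ∑ j, β j = N + d →
    ∃ β' : Fin m → ℕ, (∀ j, β' j ≤ β j) ∧ ∑ j, β' j = N
  | 0, β, h => ⟨β, fun _ => le_rfl, h⟩
  | d + 1, β, h => by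
    obtain ⟨j, hj⟩ : ∃ j, 0 < β j := by
      by_contra hcon
      push Not at hcon
      have h1 : ∑ j, β j = 0 := Finset.sum_eq_zero fun j _ => Nat.le_zero.1 (hcon j)
      omega
    have h2 : ∑ i, Function.update β j (β j - 1) i = N + d := by
      rw [Finset.sum_update_of_mem (Finset.mem_univ j)]
      have h3 := Finset.sum_erase_add Finset.univ β (Finset.mem_univ j)
      rw [Finset.sdiff_singleton_eq_erase]
      omega
    obtain ⟨β', h3, h4⟩ := ex_le_sum N d _ h2
    refine ⟨β', fun i => (h3 i).trans ?_, h4⟩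
    by_cases hi : i = j
    · subst hi
      rw [Function.update_self]
      omega
    · rw [Function.update_of_ne hi]

section

variable {A : Type u} [CommRing A] {m : ℕ} (F : Fin m → MvPolynomial (Fin m) A)
    (c : Fin m → ℕ → A)

theorem nw_dvd {β β' : Fin m → ℕ} (h : ∀ j, β' j ≤ β j) : nw F c β' ∣ nw F c β := by
  unfold nw
  refine Finset.prod_dvd_prod_of_dvd _ _ fun j _ => ?_
  exact Finset.prod_dvd_prod_of_subset _ _ _ (Finset.range_subset_range.2 (h j))

theorem nw_add (β γ : Fin m → ℕ) :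
    nw F (fun j i => c j (β j + i)) γ * nw F c β = nw F c (fun j => β j + γ j) := by
  unfold nw
  rw [← Finset.prod_mul_distrib]
  refine Finset.prod_congr rfl fun j _ => ?_
  rw [Finset.prod_range_add, mul_comm]

theorem nw_mem (n : ℕ) {β : Fin m → ℕ} (h : n ≤ ∑ j, β j) : nw F c β ∈ NI F c n := by
  obtain ⟨β', h1, h2⟩ := ex_le_sum n (∑ j, β j - n) β (by omega)
  exact Ideal.mem_of_dvd _ (nw_dvd F c h1) (Ideal.subset_span ⟨β', h2, rfl⟩)

/-- the family of the products -/
noncomputable def pr (R : ℕ) (p : (Fin m → Fin R) × (Fin m → ℕ)) : MvPolynomial (Fin m) A :=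
  mo A p.1 * nw F c p.2

theorem mul_nw_mem (hB : T_BAS.{u}) [Nontrivial A] (R n : ℕ) (hF : Lead R F) {β : Fin m → ℕ}
    (h : n ≤ ∑ j, β j) (p : MvPolynomial (Fin m) A) :
    p * nw F c β ∈ Submodule.span A (pr F c R '' {q | n ≤ ∑ j, q.2 j}) := by
  have h1 := (hB A m R F (fun j i => c j (β j + i)) hF).2
  have h2 : p ∈ Submodule.span A (Set.range fun p : (Fin m → Fin R) × (Fin m → ℕ) =>
        mo A p.1 * nw F (fun j i => c j (β j + i)) p.2) := by
    rw [h1]
    exact Submodule.mem_top
  induction h2 using Submodule.span_induction with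
  | mem x hx =>
    obtain ⟨q, rfl⟩ := hx
    refine Submodule.subset_span ⟨(q.1, fun j => β j + q.2 j), ?_, ?_⟩
    · show n ≤ ∑ j, (β j + q.2 j)
      rw [Finset.sum_add_distrib]
      omega
    · show mo A q.1 * nw F c (fun j => β j + q.2 j) = _
      rw [mul_assoc, nw_add]
  | zero => rw [zero_mul]; exact Submodule.zero_mem _
  | add x y _ _ hx hy => rw [add_mul]; exact Submodule.add_mem _ hx hy
  | smul a x _ hx => rw [smul_mul_assoc]; exact Submodule.smul_mem _ a hx

theorem NI_le (hB : T_BAS.{u}) [Nontrivial A] (R n : ℕ) (hF : Lead R F)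
    {x : MvPolynomial (Fin m) A} (hx : x ∈ NI F c n) :
    x ∈ Submodule.span A (pr F c R '' {q | n ≤ ∑ j, q.2 j}) := by
  unfold NI Ideal.span at hx
  rw [Submodule.mem_span_set'] at hx
  obtain ⟨N, f, g, rfl⟩ := hx
  refine Submodule.sum_mem _ fun i _ => ?_
  obtain ⟨β, h1, h2⟩ := (g i).2
  rw [smul_eq_mul, h2]
  exact mul_nw_mem F c hB R n hF h1.ge (f i)

end

theorem pf_QB (hB : T_BAS.{u}) : T_QB.{u} := by
  intro A _ _ m R F c n hF
  have hli : LinearIndependent A (pr F c R) := (hB A m R F c hF).1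
  have hsp : Submodule.span A (Set.range (pr F c R)) = ⊤ := (hB A m R F c hF).2
  let em : Ix m R n → (Fin m → Fin R) × (Fin m → ℕ) := fun p => (p.1, fun j => (p.2.1 j : ℕ))
  have hem : Function.Injective em := by
    rintro ⟨α, β, hβ⟩ ⟨α', β', hβ'⟩ h
    have h1 : α = α' := congrArg Prod.fst h
    have h2 : (fun j => (β j : ℕ)) = fun j => (β' j : ℕ) := congrArg Prod.snd h
    subst h1
    have h3 : β = β' := funext fun j => Fin.ext (congrFun h2 j)
    subst h3
    rfl
  let q : MvPolynomial (Fin m) A →ₗ[A] MvPolynomial (Fin m) A ⧸ NI F c (n + 1) :=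
    (Ideal.Quotient.mkₐ A (NI F c (n + 1))).toLinearMap
  have hq : ∀ x, q x = Ideal.Quotient.mk (NI F c (n + 1)) x := fun x => rfl
  have hli' : LinearIndependent A (q ∘ (pr F c R ∘ em)) := by
    refine (hli.comp em hem).map ?_
    have h1 : Disjoint {p : (Fin m → Fin R) × (Fin m → ℕ) | ∑ j, p.2 j ≤ n}
        {p | n + 1 ≤ ∑ j, p.2 j} := by
      rw [Set.disjoint_left]
      intro p hp hp'
      have h2 : ∑ j, p.2 j ≤ n := hp
      have h3 : n + 1 ≤ ∑ j, p.2 j := hp'
      omega
    refine (hli.disjoint_span_image h1).mono ?_ ?_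
    · refine Submodule.span_mono ?_
      rintro _ ⟨p, rfl⟩
      exact ⟨em p, p.2.2, rfl⟩
    · intro x hx
      rw [LinearMap.mem_ker, hq, Ideal.Quotient.eq_zero_iff_mem] at hx
      exact NI_le F c hB R (n + 1) hF hx
  have hsp' : ⊤ ≤ Submodule.span A (Set.range (q ∘ (pr F c R ∘ em))) := by
    intro y _
    obtain ⟨x, rfl⟩ := Ideal.Quotient.mk_surjective y
    rw [← hq]
    have hx : x ∈ Submodule.span A (Set.range (pr F c R)) := by rw [hsp]; exact Submodule.mem_top
    induction hx using Submodule.span_induction with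
    | mem x hx =>
      obtain ⟨p, rfl⟩ := hx
      by_cases hp : ∑ j, p.2 j ≤ n
      · have h1 : ∀ j, p.2 j < n + 1 := fun j =>
          Nat.lt_succ_of_le ((Finset.single_le_sum (f := p.2) (fun _ _ => Nat.zero_le _)
            (Finset.mem_univ j)).trans hp)
        exact Submodule.subset_span ⟨(p.1, ⟨fun j => ⟨p.2 j, h1 j⟩, hp⟩), rfl⟩
      · have h1 : q (pr F c R p) = 0 := by
          rw [hq, Ideal.Quotient.eq_zero_iff_mem]
          exact Ideal.mul_mem_left _ _ (nw_mem F c (n + 1) (by omega))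
        rw [h1]
        exact Submodule.zero_mem _
    | zero => rw [map_zero]; exact Submodule.zero_mem _
    | add x y _ _ hx hy =>
      rw [map_add]
      exact Submodule.add_mem _ (hx Submodule.mem_top) (hy Submodule.mem_top)
    | smul a x _ hx => rw [map_smul]; exact Submodule.smul_mem _ a (hx Submodule.mem_top)
  exact ⟨Basis.mk hli' hsp', fun p => Basis.mk_apply _ _ p⟩

end Pool.Agent.H68.DB
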